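import Mathlib

/-!
# Kaplansky's 4-in-a-line game: frame

`Pool.Agent.H64.Kap.FWin F S`: First, to move, wins with First's stones `F` and Second's stones `S`.
`frame` turns `FWin ∅ ∅` into the negation of the frozen statement.
-/

set_option autoImplicit false

namespace Pool.Agent.H64.Kap

/-- Lattice points. -/
abbrev Pt := ℤ × ℤ

/-- `F` has four stones on a line without stones of `S`. -/
def Four (F S : Finset Pt) : Prop :=
  ∃ a b c : ℤ, (a ≠ 0 ∨ b ≠ 0) ∧ 4 ≤ (F.filter (fun p => a * p.1 + b * p.2 = c)).card ∧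
    ∀ s ∈ S, a * s.1 + b * s.2 ≠ c

/-- First, to move, wins. -/
inductive FWin : Finset Pt → Finset Pt → Prop
  | win {F S : Finset Pt} (x : Pt) (hF : x ∉ F) (hS : x ∉ S) (h : Four (insert x F) S) : FWin F S
  | step {F S : Finset Pt} (x : Pt) (hF : x ∉ F) (hS : x ∉ S)
      (h0 : ∀ y, y ∉ insert x F → y ∉ S → ¬ Four (insert y S) (insert x F))
      (h : ∀ y, y ∉ insert x F → y ∉ S → FWin (insert x F) (insert y S)) : FWin F S

lemma Four.mono_left {F F' S : Finset Pt} (h : F ⊆ F') (hf : Four F S) : Four F' S := by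
  obtain ⟨a, b, c, hab, h4, hs⟩ := hf
  exact ⟨a, b, c, hab, h4.trans (Finset.card_le_card (Finset.filter_subset_filter _ h)), hs⟩

/-- Stones of First after `n` moves of the play `p`. -/
def Fs (p : ℕ → Pt) (n : ℕ) : Finset Pt := ((Finset.range n).filter (fun i => i % 2 = 0)).image p

/-- Stones of Second after `n` moves of the play `p`. -/
def Ss (p : ℕ → Pt) (n : ℕ) : Finset Pt := ((Finset.range n).filter (fun i => i % 2 = 1)).image p

lemma Fs_succ_even (p : ℕ → Pt) (n : ℕ) (h : n % 2 = 0) : Fs p (n + 1) = insert (p n) (Fs p n) := by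
  unfold Fs
  rw [Finset.range_add_one, Finset.filter_insert, if_pos h, Finset.image_insert]

lemma Fs_succ_odd (p : ℕ → Pt) (n : ℕ) (h : n % 2 = 1) : Fs p (n + 1) = Fs p n := by
  unfold Fs
  rw [Finset.range_add_one, Finset.filter_insert, if_neg (by omega)]

lemma Ss_succ_even (p : ℕ → Pt) (n : ℕ) (h : n % 2 = 0) : Ss p (n + 1) = Ss p n := by
  unfold Ss
  rw [Finset.range_add_one, Finset.filter_insert, if_neg (by omega)]

lemma Ss_succ_odd (p : ℕ → Pt) (n : ℕ) (h : n % 2 = 1) : Ss p (n + 1) = insert (p n) (Ss p n) := by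
  unfold Ss
  rw [Finset.range_add_one, Finset.filter_insert, if_pos h, Finset.image_insert]

lemma card_filter_image (p : ℕ → Pt) (hp : Function.Injective p) (n r : ℕ) (a b c : ℤ) :
    ((Finset.range n).filter (fun i => i % 2 = r ∧ a * (p i).1 + b * (p i).2 = c)).card =
      ((((Finset.range n).filter (fun i => i % 2 = r)).image p).filter
        (fun q => a * q.1 + b * q.2 = c)).card := by
  rw [Finset.filter_image, Finset.card_image_of_injective _ hp, Finset.filter_filter]

lemma W0_iff (p : ℕ → Pt) (hp : Function.Injective p) (n : ℕ) :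
    (∃ a b c : ℤ, (a ≠ 0 ∨ b ≠ 0) ∧
        4 ≤ ((Finset.range (n + 1)).filter
              (fun i => i % 2 = 0 ∧ a * (p i).1 + b * (p i).2 = c)).card ∧
        ∀ i ∈ Finset.range (n + 1), i % 2 ≠ 0 → a * (p i).1 + b * (p i).2 ≠ c) ↔
      Four (Fs p (n + 1)) (Ss p (n + 1)) := by
  unfold Four
  refine exists_congr fun a => exists_congr fun b => exists_congr fun c => and_congr Iff.rfl ?_
  rw [card_filter_image p hp]
  refine and_congr Iff.rfl ⟨?_, ?_⟩
  · intro h s hs
    simp only [Ss, Finset.mem_image, Finset.mem_filter] at hs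
    obtain ⟨i, ⟨hi, hi2⟩, rfl⟩ := hs
    exact h i hi (by omega)
  · intro h i hi hi2
    refine h (p i) ?_
    simp only [Ss, Finset.mem_image, Finset.mem_filter]
    exact ⟨i, ⟨hi, by omega⟩, rfl⟩

lemma W1_iff (p : ℕ → Pt) (hp : Function.Injective p) (n : ℕ) :
    (∃ a b c : ℤ, (a ≠ 0 ∨ b ≠ 0) ∧
        4 ≤ ((Finset.range (n + 1)).filter
              (fun i => i % 2 = 1 ∧ a * (p i).1 + b * (p i).2 = c)).card ∧
        ∀ i ∈ Finset.range (n + 1), i % 2 ≠ 1 → a * (p i).1 + b * (p i).2 ≠ c) ↔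
      Four (Ss p (n + 1)) (Fs p (n + 1)) := by
  unfold Four
  refine exists_congr fun a => exists_congr fun b => exists_congr fun c => and_congr Iff.rfl ?_
  rw [card_filter_image p hp]
  refine and_congr Iff.rfl ⟨?_, ?_⟩
  · intro h s hs
    simp only [Fs, Finset.mem_image, Finset.mem_filter] at hs
    obtain ⟨i, ⟨hi, hi2⟩, rfl⟩ := hs
    exact h i hi (by omega)
  · intro h i hi hi2
    refine h (p i) ?_
    simp only [Fs, Finset.mem_image, Finset.mem_filter]
    exact ⟨i, ⟨hi, by omega⟩, rfl⟩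

/-- A point outside a list. -/
noncomputable def fresh (h : List Pt) : Pt := (Infinite.exists_notMem_finset h.toFinset).choose

lemma fresh_notMem (h : List Pt) : fresh h ∉ h := by
  have := (Infinite.exists_notMem_finset h.toFinset).choose_spec
  simpa [fresh] using this

open Classical in
/-- `x` if it is free, else a free point. -/
noncomputable def tryMove (x : Pt) (h : List Pt) : Pt := if x ∈ h then fresh h else x

lemma tryMove_notMem (x : Pt) (h : List Pt) : tryMove x h ∉ h := by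
  unfold tryMove
  split_ifs with hx
  · exact fresh_notMem h
  · exact hx

lemma tryMove_eq {x : Pt} {h : List Pt} (hx : x ∉ h) : tryMove x h = x := by
  unfold tryMove
  rw [if_neg hx]

lemma mem_of_mem_map_range {p : ℕ → Pt} {n : ℕ} {x : Pt} (hx : x ∈ (List.range n).map p) :
    x ∈ Fs p n ∨ x ∈ Ss p n := by
  rw [List.mem_map] at hx
  obtain ⟨i, hi, rfl⟩ := hx
  rw [List.mem_range] at hi
  rcases Nat.mod_two_eq_zero_or_one i with h | h
  · left
    exact Finset.mem_image_of_mem p (by simp [hi, h])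
  · right
    exact Finset.mem_image_of_mem p (by simp [hi, h])

lemma notMem_Fs {p : ℕ → Pt} (hp : Function.Injective p) {n m : ℕ} (h : n ≤ m) : p m ∉ Fs p n := by
  intro hx
  simp only [Fs, Finset.mem_image, Finset.mem_filter, Finset.mem_range] at hx
  obtain ⟨i, ⟨hi, -⟩, hi2⟩ := hx
  have := hp hi2
  omega

lemma notMem_Ss {p : ℕ → Pt} (hp : Function.Injective p) {n m : ℕ} (h : n ≤ m) : p m ∉ Ss p n := by
  intro hx
  simp only [Ss, Finset.mem_image, Finset.mem_filter, Finset.mem_range] at hx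
  obtain ⟨i, ⟨hi, -⟩, hi2⟩ := hx
  have := hp hi2
  omega

/-- A winning position has a strategy. -/
theorem FWin.strat {F S : Finset Pt} (hw : FWin F S) : ∀ n0 : ℕ, n0 % 2 = 0 →
    ∃ σ : List Pt → Pt, (∀ h, σ h ∉ h) ∧ ∀ p : ℕ → Pt, Function.Injective p →
      Fs p n0 = F → Ss p n0 = S →
      (∀ n, n0 ≤ n → n % 2 = 0 → p n = σ ((List.range n).map p)) →
      ∃ n, n0 ≤ n ∧ Four (Fs p (n + 1)) (Ss p (n + 1)) ∧
        ∀ m, n0 ≤ m → m < n → ¬ Four (Ss p (m + 1)) (Fs p (m + 1)) := by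
  classical
  induction hw with
  | @win F S x hF hS h =>
    intro n0 hn0
    refine ⟨tryMove x, tryMove_notMem x, ?_⟩
    intro p hp hFp hSp hσ
    have h1 : p n0 = x := by
      rw [hσ n0 le_rfl hn0]
      apply tryMove_eq
      intro hx
      rcases mem_of_mem_map_range hx with h | h
      · exact hF (hFp ▸ h)
      · exact hS (hSp ▸ h)
    refine ⟨n0, le_rfl, ?_, fun m hm hm' => absurd hm (by omega)⟩
    rw [Fs_succ_even p n0 hn0, Ss_succ_even p n0 hn0, hFp, hSp, h1]
    exact h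
  | @step F S x hF hS h h' ih =>
    intro n0 hn0
    have key : ∀ y : Pt, ∃ σ : List Pt → Pt, (∀ h, σ h ∉ h) ∧
        (y ∉ insert x F → y ∉ S → ∀ p : ℕ → Pt, Function.Injective p →
          Fs p (n0 + 2) = insert x F → Ss p (n0 + 2) = insert y S →
          (∀ n, n0 + 2 ≤ n → n % 2 = 0 → p n = σ ((List.range n).map p)) →
          ∃ n, n0 + 2 ≤ n ∧ Four (Fs p (n + 1)) (Ss p (n + 1)) ∧
            ∀ m, n0 + 2 ≤ m → m < n → ¬ Four (Ss p (m + 1)) (Fs p (m + 1))) := by
      intro y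
      by_cases hy : y ∉ insert x F ∧ y ∉ S
      · obtain ⟨σ, h1, h2⟩ := ih y hy.1 hy.2 (n0 + 2) (by omega)
        exact ⟨σ, h1, fun _ _ => h2⟩
      · exact ⟨fresh, fresh_notMem, fun h1 h2 => absurd ⟨h1, h2⟩ hy⟩
    choose σy hσy1 hσy2 using key
    refine ⟨fun l => if l.length ≤ n0 + 1 then tryMove x l else σy (l.getD (n0 + 1) x) l, ?_, ?_⟩
    · intro l
      dsimp only
      split_ifs with hl
      · exact tryMove_notMem x l
      · exact hσy1 _ l
    · intro p hp hFp hSp hσ
      have h1 : p n0 = x := by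
        rw [hσ n0 le_rfl hn0]
        dsimp only
        rw [if_pos (by simp)]
        apply tryMove_eq
        intro hx
        rcases mem_of_mem_map_range hx with h | h
        · exact hF (hFp ▸ h)
        · exact hS (hSp ▸ h)
      have hF1 : Fs p (n0 + 1) = insert x F := by rw [Fs_succ_even p n0 hn0, hFp, h1]
      have hS1 : Ss p (n0 + 1) = S := by rw [Ss_succ_even p n0 hn0, hSp]
      have hF2 : Fs p (n0 + 2) = insert x F := by rw [Fs_succ_odd p (n0 + 1) (by omega), hF1]
      have hS2 : Ss p (n0 + 2) = insert (p (n0 + 1)) S := by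
        rw [Ss_succ_odd p (n0 + 1) (by omega), hS1]
      have hy1 : p (n0 + 1) ∉ insert x F := hF1 ▸ notMem_Fs hp le_rfl
      have hy2 : p (n0 + 1) ∉ S := hS1 ▸ notMem_Ss hp le_rfl
      obtain ⟨n, hn, hn1, hn2⟩ := hσy2 (p (n0 + 1)) hy1 hy2 p hp hF2 hS2 (by
        intro n hn hn2
        rw [hσ n (by omega) hn2]
        dsimp only
        rw [if_neg (by simp; omega)]
        congr 1
        rw [List.getD_eq_getElem _ _ (by simp; omega)]
        simp)
      refine ⟨n, by omega, hn1, ?_⟩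
      intro m hm hm'
      by_cases hm2 : n0 + 2 ≤ m
      · exact hn2 m hm2 hm'
      · have h4 := h (p (n0 + 1)) hy1 hy2
        have hm3 : m = n0 ∨ m = n0 + 1 := by omega
        rcases hm3 with rfl | rfl
        · rw [hF1, hS1]
          intro h5
          exact h4 (h5.mono_left (Finset.subset_insert _ _))
        · rw [hF2, hS2]
          exact h4

/-- From `FWin ∅ ∅` to the frozen negation. -/
theorem frame (hw : FWin ∅ ∅) :
    ¬ (∀ W : ℕ → (ℕ → ℤ × ℤ) → ℕ → Prop,
    (W = fun r p n => ∃ a b c : ℤ, (a ≠ 0 ∨ b ≠ 0) ∧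
        4 ≤ ((Finset.range (n + 1)).filter
              (fun i => i % 2 = r ∧ a * (p i).1 + b * (p i).2 = c)).card ∧
        ∀ i ∈ Finset.range (n + 1), i % 2 ≠ r → a * (p i).1 + b * (p i).2 ≠ c) →
    ∀ r : ℕ, r < 2 →
      ¬ ∃ σ : List (ℤ × ℤ) → ℤ × ℤ, (∀ h : List (ℤ × ℤ), σ h ∉ h) ∧
        ∀ p : ℕ → ℤ × ℤ, Function.Injective p →
          (∀ n : ℕ, n % 2 = r → p n = σ ((List.range n).map p)) →
          ∃ n : ℕ, W r p n ∧ ∀ m : ℕ, m < n → ¬ W (1 - r) p m) := by
  intro H
  refine H _ rfl 0 (by norm_num) ?_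
  obtain ⟨σ, h1, h2⟩ := hw.strat 0 rfl
  refine ⟨σ, h1, ?_⟩
  intro p hp hσ
  obtain ⟨n, -, hn1, hn2⟩ := h2 p hp (by simp [Fs]) (by simp [Ss]) (fun n _ hn => hσ n hn)
  refine ⟨n, (W0_iff p hp n).2 hn1, ?_⟩
  intro m hm hW
  exact hn2 m (Nat.zero_le _) hm ((W1_iff p hp m).1 hW)

end Pool.Agent.H64.Kap
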