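import Pool.Agent.H64.Kap.Frame

/-!
# Kaplansky's 4-in-a-line game: forcing moves
-/

set_option autoImplicit false

namespace Pool.Agent.H64.Kap

/-- Twice the oriented area of `u v w`. -/
def det (u v w : Pt) : ℤ := (v.1 - u.1) * (w.2 - u.2) - (v.2 - u.2) * (w.1 - u.1)

/-- The line `u v` carries no stone of `S`. -/
def Clear (S : Finset Pt) (u v : Pt) : Prop := ∀ s ∈ S, det u v s ≠ 0

/-- Every collinear triple of `S` is blocked by a stone of `F`. -/
def NoThree (S F : Finset Pt) : Prop :=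
  ∀ u ∈ S, ∀ v ∈ S, ∀ w ∈ S, u ≠ v → u ≠ w → v ≠ w → det u v w = 0 → ∃ f ∈ F, det u v f = 0

lemma det_eq_zero_iff {a b c : ℤ} (hab : a ≠ 0 ∨ b ≠ 0) {u v : Pt} (huv : u ≠ v)
    (hu : a * u.1 + b * u.2 = c) (hv : a * v.1 + b * v.2 = c) (w : Pt) :
    det u v w = 0 ↔ a * w.1 + b * w.2 = c := by
  have h1 : a * (v.1 - u.1) + b * (v.2 - u.2) = 0 := by linarith
  have h2 : v.1 - u.1 ≠ 0 ∨ v.2 - u.2 ≠ 0 := by
    by_contra h
    push Not at h
    apply huv
    ext
    · linarith [h.1]
    · linarith [h.2]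
  unfold det
  constructor
  · intro h
    have e1 : (v.1 - u.1) * (a * (w.1 - u.1) + b * (w.2 - u.2)) = 0 := by
      linear_combination (w.1 - u.1) * h1 + b * h
    have e2 : (v.2 - u.2) * (a * (w.1 - u.1) + b * (w.2 - u.2)) = 0 := by
      linear_combination (w.2 - u.2) * h1 - a * h
    have e3 : a * (w.1 - u.1) + b * (w.2 - u.2) = 0 := by
      rcases h2 with h2 | h2
      · exact (mul_eq_zero.1 e1).resolve_left h2
      · exact (mul_eq_zero.1 e2).resolve_left h2
    linarith
  · intro h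
    have e3 : a * (w.1 - u.1) + b * (w.2 - u.2) = 0 := by linarith
    rcases hab with h3 | h3
    · have : a * ((v.1 - u.1) * (w.2 - u.2) - (v.2 - u.2) * (w.1 - u.1)) = 0 := by
        linear_combination (w.2 - u.2) * h1 - (v.2 - u.2) * e3
      exact (mul_eq_zero.1 this).resolve_left h3
    · have : b * ((v.1 - u.1) * (w.2 - u.2) - (v.2 - u.2) * (w.1 - u.1)) = 0 := by
        linear_combination (v.1 - u.1) * e3 - (w.1 - u.1) * h1
      exact (mul_eq_zero.1 this).resolve_left h3

/-- the line through `u`, `v` in coefficient form -/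
lemma det_eq_zero_iff' (u v w : Pt) :
    det u v w = 0 ↔ (v.2 - u.2) * w.1 + (-(v.1 - u.1)) * w.2 =
      (v.2 - u.2) * u.1 + (-(v.1 - u.1)) * u.2 := by
  unfold det
  constructor <;> intro h <;> linarith

lemma coeff_ne {u v : Pt} (huv : u ≠ v) : (v.2 - u.2) ≠ 0 ∨ (-(v.1 - u.1)) ≠ 0 := by
  by_contra h
  push Not at h
  apply huv
  ext
  · linarith [h.2]
  · linarith [h.1]

lemma four_of {F S : Finset Pt} {u v w z : Pt} (hu : u ∈ F) (hv : v ∈ F) (hw : w ∈ F) (hz : z ∈ F)
    (h1 : u ≠ v) (h2 : u ≠ w) (h3 : u ≠ z) (h4 : v ≠ w) (h5 : v ≠ z) (h6 : w ≠ z)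
    (hdw : det u v w = 0) (hdz : det u v z = 0) (hc : Clear S u v) : Four F S := by
  refine ⟨v.2 - u.2, -(v.1 - u.1), (v.2 - u.2) * u.1 + (-(v.1 - u.1)) * u.2, coeff_ne h1, ?_, ?_⟩
  · have hsub : ({u, v, w, z} : Finset Pt) ⊆ F.filter (fun p => (v.2 - u.2) * p.1 +
        (-(v.1 - u.1)) * p.2 = (v.2 - u.2) * u.1 + (-(v.1 - u.1)) * u.2) := by
      intro t ht
      simp only [Finset.mem_insert, Finset.mem_singleton] at ht
      rw [Finset.mem_filter]
      rcases ht with rfl | rfl | rfl | rfl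
      · exact ⟨hu, rfl⟩
      · exact ⟨hv, by ring⟩
      · exact ⟨hw, (det_eq_zero_iff' _ _ _).1 hdw⟩
      · exact ⟨hz, (det_eq_zero_iff' _ _ _).1 hdz⟩
    have hcard : ({u, v, w, z} : Finset Pt).card = 4 := by
      rw [Finset.card_insert_of_notMem (by simp [h1, h2, h3]),
        Finset.card_insert_of_notMem (by simp [h4, h5]),
        Finset.card_insert_of_notMem (by simp [h6]), Finset.card_singleton]
    rw [← hcard]
    exact Finset.card_le_card hsub
  · intro s hs hss
    exact hc s hs ((det_eq_zero_iff' _ _ _).2 hss)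

lemma not_four_insert {F S : Finset Pt} (h : NoThree S F) (y : Pt) : ¬ Four (insert y S) F := by
  rintro ⟨a, b, c, hab, h4, hF⟩
  have h3 : 3 ≤ (S.filter (fun p => a * p.1 + b * p.2 = c)).card := by
    rw [Finset.filter_insert] at h4
    split_ifs at h4
    · have := Finset.card_insert_le y (S.filter (fun p => a * p.1 + b * p.2 = c))
      omega
    · omega
  obtain ⟨u, v, w, hu, hv, hw, h1, h2, h3⟩ := Finset.two_lt_card_iff.1 (by omega :
    2 < (S.filter (fun p => a * p.1 + b * p.2 = c)).card)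
  rw [Finset.mem_filter] at hu hv hw
  have key := det_eq_zero_iff hab h1 hu.2 hv.2
  obtain ⟨f, hf, hf2⟩ := h u hu.1 v hv.1 w hw.1 h1 h2 h3 ((key w).2 hw.2)
  exact hF f hf ((key f).1 hf2)

/-- There are many lattice points on the line `u v`. -/
lemma exists_on_line {u v : Pt} (huv : u ≠ v) (T : Finset Pt) : ∃ z, z ∉ T ∧ det u v z = 0 := by
  have hinj : Function.Injective (fun t : ℤ => ((u.1 + t * (v.1 - u.1), u.2 + t * (v.2 - u.2)) : Pt)) := by
    intro s t hst
    simp only [Prod.mk.injEq] at hst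
    by_contra hne
    apply huv
    have h1 : (s - t) * (v.1 - u.1) = 0 := by linarith [hst.1]
    have h2 : (s - t) * (v.2 - u.2) = 0 := by linarith [hst.2]
    have h3 : s - t ≠ 0 := sub_ne_zero.2 hne
    ext
    · linarith [(mul_eq_zero.1 h1).resolve_left h3]
    · linarith [(mul_eq_zero.1 h2).resolve_left h3]
  have hinf := Set.infinite_range_of_injective hinj
  obtain ⟨z, hz, hzT⟩ := hinf.exists_notMem_finset T
  obtain ⟨t, rfl⟩ := hz
  refine ⟨_, hzT, ?_⟩
  unfold det
  ring

/-- First has an open three and the move. -/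
theorem FWin.now {F S : Finset Pt} {u v w : Pt} (hu : u ∈ F) (hv : v ∈ F) (hw : w ∈ F)
    (h1 : u ≠ v) (h2 : u ≠ w) (h3 : v ≠ w) (hd : det u v w = 0) (hc : Clear S u v) : FWin F S := by
  obtain ⟨z, hz, hdz⟩ := exists_on_line h1 (F ∪ S)
  rw [Finset.mem_union, not_or] at hz
  refine FWin.win z hz.1 hz.2 ?_
  refine four_of (u := u) (v := v) (w := w) (z := z) (by simp [hu]) (by simp [hv]) (by simp [hw])
    (by simp) h1 h2 ?_ h3 ?_ ?_ hd hdz hc
  · rintro rfl; exact hz.1 hu
  · rintro rfl; exact hz.1 hv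
  · rintro rfl; exact hz.1 hw

lemma clear_insert {S : Finset Pt} {u v y : Pt} (hc : Clear S u v) (hy : det u v y ≠ 0) :
    Clear (insert y S) u v := by
  intro s hs
  rw [Finset.mem_insert] at hs
  rcases hs with rfl | hs
  · exact hy
  · exact hc s hs

/-- A check: First makes an open three, Second has no open three, so Second must reply on the line. -/
theorem FWin.check {F S : Finset Pt} (x u v : Pt) (hxF : x ∉ F) (hxS : x ∉ S) (hu : u ∈ F)
    (hv : v ∈ F) (huv : u ≠ v) (hd : det u v x = 0) (hc : Clear S u v)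
    (hno : NoThree S (insert x F))
    (h : ∀ y, y ∉ insert x F → y ∉ S → det u v y = 0 → FWin (insert x F) (insert y S)) :
    FWin F S := by
  refine FWin.step x hxF hxS (fun y _ _ => not_four_insert hno y) ?_
  intro y hy1 hy2
  by_cases hy : det u v y = 0
  · exact h y hy1 hy2 hy
  · refine FWin.now (u := u) (v := v) (w := x) (by simp [hu]) (by simp [hv]) (by simp) huv ?_ ?_ hd
      (clear_insert hc hy)
    · rintro rfl; exact hxF hu
    · rintro rfl; exact hxF hv

/-- A double check. -/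
theorem FWin.double {F S : Finset Pt} (x u v u' v' : Pt) (hxF : x ∉ F) (hxS : x ∉ S) (hu : u ∈ F)
    (hv : v ∈ F) (huv : u ≠ v) (hd : det u v x = 0) (hc : Clear S u v)
    (hu' : u' ∈ F) (hv' : v' ∈ F) (huv' : u' ≠ v') (hd' : det u' v' x = 0) (hc' : Clear S u' v')
    (hne : det u v u' ≠ 0)
    (hno : NoThree S (insert x F)) : FWin F S := by
  refine FWin.check x u v hxF hxS hu hv huv hd hc hno ?_
  intro y hy1 hy2 hy
  have hxu' : u' ≠ x := by rintro rfl; exact hxF hu'
  have hxv' : v' ≠ x := by rintro rfl; exact hxF hv'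
  refine FWin.now (u := u') (v := v') (w := x) (by simp [hu']) (by simp [hv']) (by simp) huv' hxu'
    hxv' hd' (clear_insert hc' ?_)
  intro hy3
  -- `y` and `x` lie on both lines, hence `y = x`
  have hyx : y ≠ x := by rintro rfl; exact hy1 (by simp)
  apply hne
  rw [det_eq_zero_iff' u' v' y] at hy3
  rw [det_eq_zero_iff' u' v' x] at hd'
  rw [det_eq_zero_iff' u v y] at hy
  rw [det_eq_zero_iff' u v x] at hd
  -- line through x, y equals both
  have k1 := det_eq_zero_iff (coeff_ne huv') hyx hy3 hd' u'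
  have k2 := det_eq_zero_iff (coeff_ne huv) hyx hy hd u'
  rw [det_eq_zero_iff' u v u', ← k2, k1]

end Pool.Agent.H64.Kap
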